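import Pool.Agent.KS6_28.CH.Union

/-!
# `CH^*(U)` is finitely generated if and only if `U` is of finite type; its dimension and spectrum

`U` is an open union of strata of `𝔐_{0,n}`, of finite type or not.  `Strata`, `Tower`, `taut` are the
definitions of `Pool.Graph.R_seed8.H353R3.Ch1` and `Ch4` (the formal properties of the rings
`CH^*(U_j)` for `U` of finite type), `OpenUnion` (file `Pool/Agent/KS6_28/CH/Union.lean`) is the
corresponding notion for an arbitrary open union of strata.  `low U a` is the number of vertices of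
valence at most two of the graph of the stratum `a`.  `rho T j` is the restriction of `CH^*(U)` to the
stratum `𝔐_{Γ_j}`, with values in `R_{Γ_j} = ⊗_v CH^*(M_{0,n(v)}^sm)`.
-/

set_option autoImplicit false

namespace Pool.Agent.Results.MP_ce8637_ag.FiniteTypeIff

open Pool.Agent.H353R3.Ch Pool.Agent.KS6_28.CH

/-- `B` is a finitely generated `ℚ`-algebra if and only if `U` has finitely many strata, if and only
if the Krull dimension of `B` is finite. -/
def FinitelyGeneratedIff {n : ℕ} {B : Type} [CommRing B] [Algebra ℚ B] (U : OpenUnion n B) : Prop :=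
  (Algebra.FiniteType ℚ B ↔ Finite U.ι) ∧ (ringKrullDim B < ⊤ ↔ Finite U.ι)

/-- The Krull dimension of `B` is the supremum over the strata of the number of vertices of valence
at most two; for `U = 𝔐_{0,n}^{≤ e}` it is `e + 1` if `n ≤ 2` and `e` if `n ≥ 3`. -/
def DimensionFormula {n : ℕ} {B : Type} [CommRing B] [Algebra ℚ B] (U : OpenUnion n B) : Prop :=
  ringKrullDim B = ⨆ a, ((low U a : ℕ) : WithBot ℕ∞) ∧
    ∀ e : ℕ, IsAtMost U e → ringKrullDim B = ((if n ≤ 2 then e + 1 else e : ℕ) : WithBot ℕ∞)

/-- If `B` is generated by `g` elements, the graph of every stratum of `U` has at most `g` vertices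
of valence at most two and at most `3 g + n - 2` vertices. -/
def GeneratorBound {n : ℕ} {B : Type} [CommRing B] [Algebra ℚ B] (U : OpenUnion n B) : Prop :=
  ∀ (g : ℕ) (x : Fin g → B), Algebra.adjoin ℚ (Set.range x) = ⊤ → ∀ a : U.ι,
    low U a ≤ g ∧ Fintype.card (U.Γ a).V + 2 ≤ 3 * g + n

/-- If `N` is at least the number of flags of the graph of every stratum, `CH^*(U)` is a finite
module over the subring generated by `κ_{2b}`, `ψ_i`, `δ_k`, `1 ≤ b, k ≤ N + 1`. -/
def FiniteOverTautological {n m : ℕ} {S : Strata n m} (T : Tower S) : Prop :=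
  ∀ N : ℕ, (∀ j, Fintype.card (S.Γ j).Flag ≤ N) →
    Module.Finite (taut T (N + 1)) (S.A (Fin.last m))

/-- The nilradical of `CH^*(U)` consists of the classes which restrict to zero on all strata; its
`m`-th power is zero, `m` the number of strata. -/
def NilradicalFormula {n m : ℕ} {S : Strata n m} (T : Tower S) : Prop :=
  (∀ x : S.A (Fin.last m), x ∈ nilradical (S.A (Fin.last m)) ↔ ∀ j, rho T j x = 0) ∧
    nilradical (S.A (Fin.last m)) ^ m = ⊥

/-- Every prime ideal of `CH^*(U)` is the inverse image of a prime ideal of `R_{Γ_j}` for some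
stratum. Every minimal prime ideal is the kernel of the restriction to some stratum. -/
def PrimesFormula {n m : ℕ} {S : Strata n m} (T : Tower S) : Prop :=
  (∀ P : Ideal (S.A (Fin.last m)), P.IsPrime →
    ∃ (j : Fin m) (Q : Ideal (S.Γ j).R), Q.IsPrime ∧ Q.comap (rho T j) = P) ∧
  ∀ P ∈ minimalPrimes (S.A (Fin.last m)), ∃ j : Fin m, P = RingHom.ker (rho T j)

/-- The dimension of `CH^*(U) / P_j`, `P_j` the kernel of the restriction to the stratum `𝔐_{Γ_j}`,
is the number of vertices of valence at most two of `Γ_j`. -/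
def ComponentDimensions {n m : ℕ} {S : Strata n m} (T : Tower S) : Prop :=
  ∀ j : Fin m, ringKrullDim (S.A (Fin.last m) ⧸ RingHom.ker (rho T j)) =
    ((Fintype.card {v : (S.Γ j).V // (S.Γ j).val v ≤ 2} : ℕ) : WithBot ℕ∞)

/-- (A) Let `B = CH^*(U)` for an open union `U` of strata of `𝔐_{0,n}`, of finite type or not. Then
`B` is finitely generated if and only if `U` is of finite type, and the dimension of `B` is the
supremum over the strata of the number of vertices of valence at most two. (B) The structure of
`CH^*(U)` for `U` of finite type. -/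
theorem result :
    (∀ (n : ℕ) (B : Type) [CommRing B] [Algebra ℚ B] (U : OpenUnion n B),
      FinitelyGeneratedIff U ∧ DimensionFormula U ∧ GeneratorBound U) ∧
    ∀ (n m : ℕ) (S : Strata n m) (T : Tower S), FiniteOverTautological T ∧ NilradicalFormula T ∧
      PrimesFormula T ∧ ComponentDimensions T := by
  refine ⟨fun n B _ _ U => ⟨⟨ft_iff U, dim_lt_top_iff U⟩, ⟨dim_union U,
    fun e he => dim_atMost U e he⟩, fun g x hx a => generators U x hx a⟩, fun n m S T =>
    ⟨fun N hN => finite_tautN T N hN, ⟨fun x => ?_, ?_⟩, ⟨prime_comap T, minimal_prime T⟩,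
      dim_quot T⟩⟩
  · rw [← kerAll_eq T, kerAll, Ideal.mem_iInf]
    rfl
  · rw [← kerAll_eq T]
    exact kerAll_pow T

end Pool.Agent.Results.MP_ce8637_ag.FiniteTypeIff
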